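import Mathlib

/-! Combinatorial part of task RG-S2 (helper386): gaps which contain runs of composites. -/

set_option autoImplicit false

namespace Pool.Agent.H312R2.RG

open Finset

lemma S2_nth_le {a i : ℕ} (h : i < Nat.primeCounting a) : Nat.nth Nat.Prime i ≤ a := by
  have h1 : i < Nat.count Nat.Prime (a + 1) := h
  have h2 := Nat.nth_lt_of_lt_count h1
  omega

lemma S2_nth_gt (a : ℕ) : a < Nat.nth Nat.Prime (Nat.primeCounting a) := by
  have h : Nat.primeCounting a = Nat.count Nat.Prime (a + 1) := rfl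
  rw [h]
  have h2 : a + 1 ≤ Nat.nth Nat.Prime (Nat.count Nat.Prime (a + 1)) :=
    Nat.le_nth_count Nat.infinite_setOfPred_prime (a + 1)
  omega

lemma S2_nth_le_prime {a p : ℕ} (hp : p.Prime) (h : a < p) :
    Nat.nth Nat.Prime (Nat.primeCounting a) ≤ p := by
  have e : Nat.nth Nat.Prime (Nat.count Nat.Prime p) = p := Nat.nth_count hp
  have h1 : Nat.primeCounting a ≤ Nat.count Nat.Prime p := by
    have h : Nat.primeCounting a = Nat.count Nat.Prime (a + 1) := rfl
    rw [h]
    exact Nat.count_monotone _ (by omega)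
  calc Nat.nth Nat.Prime (Nat.primeCounting a) ≤ Nat.nth Nat.Prime (Nat.count Nat.Prime p) :=
        (Nat.nth_strictMono Nat.infinite_setOfPred_prime).monotone h1
    _ = p := e

lemma S2_pi_lt {a b p : ℕ} (hp : p.Prime) (h1 : a < p) (h2 : p ≤ b) :
    Nat.primeCounting a < Nat.primeCounting b := by
  have ha : Nat.primeCounting a = Nat.count Nat.Prime (a + 1) := rfl
  have hb : Nat.primeCounting b = Nat.count Nat.Prime (b + 1) := rfl
  rw [ha, hb]
  have h3 : Nat.count Nat.Prime (a + 1) ≤ Nat.count Nat.Prime p := Nat.count_monotone _ (by omega)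
  have h4 : Nat.count Nat.Prime (p + 1) ≤ Nat.count Nat.Prime (b + 1) := Nat.count_monotone _ (by omega)
  have h5 : Nat.count Nat.Prime (p + 1) = Nat.count Nat.Prime p + 1 := by
    rw [Nat.count_succ, if_pos hp]
  omega

open Classical in
theorem S2_comb {x Y : ℕ} {H : ℝ} (hH : 0 ≤ H) (hY : 2 ≤ Y) (a : ℕ → ℕ)
    (ha : ∀ j : ℕ, 1 ≤ j → j * Y ≤ a j ∧ (a j : ℝ) + H + 1 ≤ ((j + 1) * Y : ℕ))
    (hc : ∀ j : ℕ, 1 ≤ j → ∀ k : ℕ, 1 ≤ k → (k : ℝ) ≤ H + 1 → ¬ (a j + k).Prime) :
    Nat.primeCounting x ≤ Y * (2 * #{n ∈ range x | Nat.nth Nat.Prime (n + 1) ≤ x ∧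
      H ≤ (Nat.nth Nat.Prime (n + 1) : ℝ) - Nat.nth Nat.Prime n} + 3) := by
  set N := x / Y with hN
  have hY0 : 0 < Y := by omega
  set J : Finset ℕ := {j ∈ range N | 1 ≤ j ∧ ∃ p : ℕ, p.Prime ∧ j * Y < p ∧ p ≤ (j + 1) * Y} with hJ
  set G : Finset ℕ := {n ∈ range x | Nat.nth Nat.Prime (n + 1) ≤ x ∧
      H ≤ (Nat.nth Nat.Prime (n + 1) : ℝ) - Nat.nth Nat.Prime n} with hG
  have ha2 : ∀ j : ℕ, 1 ≤ j → a j < (j + 1) * Y := by
    intro j hj
    have := (ha j hj).2
    have h1 : (a j : ℝ) < ((j + 1) * Y : ℕ) := by linarith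
    exact_mod_cast h1
  -- the number of primes
  have h1 : Nat.primeCounting x ≤ Y * (#J + 2) := by
    have e : Nat.primeCounting x = #((range (x + 1)).filter Nat.Prime) := by
      rw [Nat.primeCounting, Nat.primeCounting', Nat.count_eq_card_filter_range]
    rw [e]
    have hsub : (range (x + 1)).filter Nat.Prime ⊆
        (Ioc 0 Y ∪ J.biUnion (fun j => Ioc (j * Y) ((j + 1) * Y))) ∪ Ioc (N * Y) (N * Y + Y) := by
      intro p hp
      rw [mem_filter, mem_range] at hp
      have hp0 := hp.2.pos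
      rw [mem_union, mem_union, mem_biUnion]
      rcases le_or_gt p Y with h | h
      · left; left; rw [mem_Ioc]; exact ⟨hp0, h⟩
      rcases le_or_gt p (N * Y) with h' | h'
      · left; right
        set j := (p - 1) / Y with hj
        have e1 := Nat.div_add_mod (p - 1) Y
        have e2 := Nat.mod_lt (p - 1) hY0
        rw [← hj] at e1
        have e3 : Y * j = j * Y := mul_comm _ _
        have e4 : (j + 1) * Y = j * Y + Y := by ring
        have hj1 : 1 ≤ j := by
          rw [hj, Nat.le_div_iff_mul_le hY0]; omega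
        have hjN : j < N := by
          rw [hj, Nat.div_lt_iff_lt_mul hY0]; omega
        have hm1 : j * Y < p := by omega
        have hm2 : p ≤ (j + 1) * Y := by omega
        refine ⟨j, ?_, mem_Ioc.2 ⟨hm1, hm2⟩⟩
        rw [hJ, mem_filter, mem_range]
        exact ⟨hjN, hj1, p, hp.2, hm1, hm2⟩
      · right
        rw [mem_Ioc]
        refine ⟨h', ?_⟩
        have e1 := Nat.div_add_mod x Y
        have e2 := Nat.mod_lt x hY0
        rw [← hN] at e1
        have e3 : Y * N = N * Y := mul_comm _ _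
        omega
    refine (card_le_card hsub).trans ?_
    refine (card_union_le _ _).trans ?_
    have h2 := card_union_le (Ioc 0 Y) (J.biUnion (fun j => Ioc (j * Y) ((j + 1) * Y)))
    have h3 : #(J.biUnion (fun j => Ioc (j * Y) ((j + 1) * Y))) ≤ #J * Y := by
      refine card_biUnion_le.trans ?_
      have h4 : ∀ j ∈ J, #(Ioc (j * Y) ((j + 1) * Y)) = Y := by
        intro j _
        rw [Nat.card_Ioc]
        have : (j + 1) * Y = j * Y + Y := by ring
        omega
      rw [sum_congr rfl h4, sum_const, smul_eq_mul]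
    rw [Nat.card_Ioc] at h2
    rw [Nat.card_Ioc]
    have e5 : Y * (#J + 2) = #J * Y + Y + Y := by ring
    omega
  -- the gaps
  set J' : Finset ℕ := {j ∈ J | ∃ j' ∈ J, j < j'} with hJ'
  have hJJ : #J ≤ #J' + 1 := by
    rcases J.eq_empty_or_nonempty with h | h
    · rw [h]; simp
    · have h2 : J ⊆ insert (J.max' h) J' := by
        intro j hj
        rw [mem_insert]
        rcases (J.le_max' j hj).eq_or_lt with h3 | h3
        · left; exact h3
        · right
          rw [hJ', mem_filter]
          exact ⟨hj, J.max' h, J.max'_mem h, h3⟩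
      exact (card_le_card h2).trans (card_insert_le _ _)
  set g : ℕ → ℕ := fun j => Nat.primeCounting (a j) - 1 with hg
  have hJ1 : ∀ j ∈ J, 1 ≤ j := by
    intro j hj
    rw [hJ, mem_filter] at hj
    exact hj.2.1
  have hpos : ∀ j : ℕ, 1 ≤ j → 1 ≤ Nat.primeCounting (a j) := by
    intro j hj
    have h2 := (ha j hj).1
    have h3 : 2 ≤ a j := by nlinarith
    have h4 := S2_pi_lt (a := 0) (b := a j) Nat.prime_two (by norm_num) h3
    omega
  have hfib : ∀ b ∈ J'.image g, #{j ∈ J' | g j = b} ≤ 2 := by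
    intro b _
    by_contra hcon
    push Not at hcon
    set S : Finset ℕ := {j ∈ J' | g j = b} with hS
    have hne : S.Nonempty := by
      rw [← card_pos]; omega
    set m := S.min' hne with hm
    set M := S.max' hne with hM
    have h2 : (S \ {m, M}).Nonempty := by
      rw [← card_pos]
      have h3 := card_sdiff_add_card_inter S {m, M}
      have h4 : #(S ∩ {m, M}) ≤ 2 := (card_le_card inter_subset_right).trans card_le_two
      omega
    obtain ⟨j, hj⟩ := h2
    rw [Finset.mem_sdiff, mem_insert, mem_singleton] at hj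
    push Not at hj
    have hmS : m ∈ S := S.min'_mem hne
    have hMS : M ∈ S := S.max'_mem hne
    have h3 : m < j := lt_of_le_of_ne (S.min'_le j hj.1) hj.2.1.symm
    have h4 : j < M := lt_of_le_of_ne (S.le_max' j hj.1) hj.2.2
    have hm1 : 1 ≤ m := by
      rw [hS, mem_filter, hJ', mem_filter] at hmS
      exact hJ1 m hmS.1.1
    have hM1 : 1 ≤ M := by omega
    have hjJ : j ∈ J := by
      have := hj.1
      rw [hS, mem_filter, hJ', mem_filter] at this
      exact this.1.1
    rw [hJ, mem_filter] at hjJ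
    obtain ⟨_, _, p, hp, hp1, hp2⟩ := hjJ
    have h5 : a m < p := by
      have e1 := ha2 m hm1
      have e2 : (m + 1) * Y ≤ j * Y := Nat.mul_le_mul_right Y h3
      omega
    have h6 : p ≤ a M := by
      have e1 := (ha M hM1).1
      have e2 : (j + 1) * Y ≤ M * Y := Nat.mul_le_mul_right Y h4
      omega
    have h7 := S2_pi_lt hp h5 h6
    have e1 : g m = b := by
      rw [hS, mem_filter] at hmS; exact hmS.2
    have e2 : g M = b := by
      rw [hS, mem_filter] at hMS; exact hMS.2
    have h8 := hpos m hm1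
    have h9 := hpos M hM1
    simp only [hg] at e1 e2
    omega
  have himg : J'.image g ⊆ G := by
    intro i hi
    obtain ⟨j, hj, rfl⟩ := mem_image.1 hi
    rw [hJ', mem_filter] at hj
    obtain ⟨hjJ, j', hj'J, hjj'⟩ := hj
    have hj1 := hJ1 j hjJ
    have hpj := hpos j hj1
    have e0 : g j + 1 = Nat.primeCounting (a j) := by simp only [hg]; omega
    rw [hJ, mem_filter, mem_range] at hj'J
    obtain ⟨hj'N, _, p, hp, hp1, hp2⟩ := hj'J
    have h2 : a j < p := by
      have e1 := ha2 j hj1
      have e2 : (j + 1) * Y ≤ j' * Y := Nat.mul_le_mul_right Y hjj'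
      omega
    have hpx : p ≤ x := by
      have e2 : (j' + 1) * Y ≤ N * Y := Nat.mul_le_mul_right Y hj'N
      have e3 := Nat.div_mul_le_self x Y
      rw [← hN] at e3
      omega
    have h3 := S2_nth_le_prime hp h2
    have h4 := S2_nth_gt (a j)
    have h5 : Nat.nth Nat.Prime (g j) ≤ a j := S2_nth_le (by omega)
    rw [hG, mem_filter, mem_range, e0]
    have hs : StrictMono (Nat.nth Nat.Prime) := Nat.nth_strictMono Nat.infinite_setOfPred_prime
    refine ⟨?_, h3.trans hpx, ?_⟩
    · have h6 : g j ≤ Nat.nth Nat.Prime (g j) := hs.le_apply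
      omega
    · set q := Nat.nth Nat.Prime (Nat.primeCounting (a j)) with hq
      have hqp : q.Prime := Nat.prime_nth_prime _
      obtain ⟨k, hk⟩ : ∃ k, q = a j + k := ⟨q - a j, by omega⟩
      have hk1 : 1 ≤ k := by omega
      have h7 : ¬ ((k : ℝ) ≤ H + 1) := by
        intro h8
        apply hc j hj1 k hk1 h8
        rw [← hk]; exact hqp
      push Not at h7
      have h9 : (Nat.nth Nat.Prime (g j) : ℝ) ≤ a j := by exact_mod_cast h5
      rw [hk]
      push_cast
      linarith
  have h2 : #J' ≤ 2 * #(J'.image g) := card_le_mul_card_image J' 2 hfib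
  have h3 := card_le_card himg
  have h4 : #J + 2 ≤ 2 * #G + 3 := by omega
  exact h1.trans (Nat.mul_le_mul_left Y h4)

end Pool.Agent.H312R2.RG
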