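import Mathlib
import Pool.Agent.H256R2.SC.Par
import Pool.Agent.H386R2.RG.S2a

/-! Task RG-S2 (helper386): frequency of gaps of every size up to the record scale. -/

set_option autoImplicit false

namespace Pool.Agent.H312R2.RG

open Finset Filter
open Pool.Agent.H256R2.SC (ff t1 t2 t3 t4)

/-- parameters -/
lemma S2_params {c₁ Y₀ : ℝ} (hc₁ : 0 < c₁) : ∃ x₀ : ℝ, ∀ x : ℝ, x₀ ≤ x → ∀ H : ℝ,
    Real.log x ≤ H → 16 / c₁ * H / ff x ≤ 1 / 4 → 
    16 < x ∧ 0 < ff x ∧ 1 ≤ H ∧ Y₀ ≤ x ^ (16 / c₁ * H / ff x) ∧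
    H + 1 ≤ c₁ * ff (x ^ (16 / c₁ * H / ff x)) ∧
    32 * Real.log x ≤ x ^ (16 / c₁ * H / ff x) ∧ 0 < 16 / c₁ * H / ff x ∧
    2 * Real.log x ≤ x ^ (1 / 4 : ℝ) ∧
    x / (2 * Real.log x) ≤ Nat.primeCounting ⌊x⌋₊ := by
  -- eventual facts
  have e1 : ∀ᶠ x : ℝ in atTop, 32 ≤ Real.log x := t1.eventually_ge_atTop 32
  have e2 : ∀ᶠ x : ℝ in atTop, 4 ≤ Real.log (Real.log x) := t2.eventually_ge_atTop 4
  have e3 : ∀ᶠ x : ℝ in atTop, 2 ≤ Real.log (Real.log (Real.log x)) := t3.eventually_ge_atTop 2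
  have e4 : ∀ᶠ x : ℝ in atTop, 2 ≤ Real.log (Real.log (Real.log (Real.log x))) :=
    t4.eventually_ge_atTop 2
  -- L3 <= L2/4
  have e5 : ∀ᶠ x : ℝ in atTop,
      Real.log (Real.log (Real.log x)) ≤ (1 / 4) * Real.log (Real.log x) :=
    t2.eventually (Pool.Agent.H256R2.SC.ev_log (by norm_num : (0 : ℝ) < 1 / 4))
  -- L4 <= (16 / c₁) * L3
  have e6 : ∀ᶠ x : ℝ in atTop,
      Real.log (Real.log (Real.log (Real.log x))) ≤ (16 / c₁) * Real.log (Real.log (Real.log x)) :=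
    t3.eventually (Pool.Agent.H256R2.SC.ev_log (by positivity : (0 : ℝ) < 16 / c₁))
  -- L / L2^2 >= max (log Y0) (log 32 + L2)
  have e7 : ∀ᶠ x : ℝ in atTop, (Real.log (Real.log x)) ^ 2 * (Real.log 32 + Real.log (Real.log x)) ≤
      Real.log x := by
    have h1 : (fun t : ℝ => t ^ 2 * (Real.log 32 + t)) =o[atTop] (fun t : ℝ => Real.exp t) := by
      have h2 : (fun t : ℝ => t ^ 2 * (Real.log 32 + t)) = fun t : ℝ => Real.log 32 * t ^ 2 + t ^ 3 := by
        funext t; ring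
      rw [h2]
      exact ((Real.isLittleO_pow_exp_atTop (n := 2)).const_mul_left _).add (Real.isLittleO_pow_exp_atTop (n := 3))
    have h3 := (h1.bound (by norm_num : (0 : ℝ) < 1))
    have h4 := t2.eventually h3
    filter_upwards [h4, e1] with x hx hx1
    rw [Real.exp_log (by linarith), one_mul, Real.norm_eq_abs, Real.norm_eq_abs] at hx
    have h5 := (le_abs_self _).trans hx
    rwa [abs_of_pos (by linarith)] at h5
  have e8 : ∀ᶠ x : ℝ in atTop, (Real.log (Real.log x)) ^ 2 * Real.log (max Y₀ 1) ≤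
      Real.log x := by
    have h1 : (fun t : ℝ => t ^ 2 * Real.log (max Y₀ 1)) =o[atTop] (fun t : ℝ => Real.exp t) := by
      have h2 : (fun t : ℝ => t ^ 2 * Real.log (max Y₀ 1)) = fun t : ℝ => Real.log (max Y₀ 1) * t ^ 2 := by
        funext t; ring
      rw [h2]
      exact ((Real.isLittleO_pow_exp_atTop (n := 2)).const_mul_left _)
    have h3 := (h1.bound (by norm_num : (0 : ℝ) < 1))
    have h4 := t2.eventually h3
    filter_upwards [h4, e1] with x hx hx1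
    rw [Real.exp_log (by linarith), one_mul, Real.norm_eq_abs, Real.norm_eq_abs] at hx
    have h5 := (le_abs_self _).trans hx
    rwa [abs_of_pos (by linarith)] at h5
  have e9 : ∀ᶠ x : ℝ in atTop, 2 * Real.log x ≤ x ^ (1 / 4 : ℝ) := by
    have h1 := (isLittleO_log_rpow_atTop (by norm_num : (0 : ℝ) < 1 / 4)).bound
      (by norm_num : (0 : ℝ) < 1 / 2)
    filter_upwards [h1, eventually_gt_atTop 1] with x hx hx1
    rw [Real.norm_eq_abs, Real.norm_eq_abs, abs_of_pos (Real.log_pos hx1),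
      abs_of_pos (by positivity)] at hx
    linarith
  have e10 : ∀ᶠ x : ℝ in atTop, Real.log x ≤ (1 / 100) * x := by
    exact Pool.Agent.H256R2.SC.ev_log (by norm_num)
  have e11 : ∀ᶠ x : ℝ in atTop, (1000 : ℝ) ≤ x := eventually_ge_atTop 1000
  have hall := e1.and (e2.and (e3.and (e4.and (e5.and (e6.and (e7.and (e8.and (e9.and (e10.and e11)))))))))
  obtain ⟨x₀, hx₀⟩ := eventually_atTop.1 hall
  refine ⟨x₀, ?_⟩
  intro x hx H hLH hth
  obtain ⟨a1, a2, a3, a4, a5, a6, a7, a8, a9, a10, a11⟩ := hx₀ x hx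
  set L := Real.log x with hL
  set L2 := Real.log L with hL2
  set L3 := Real.log L2 with hL3
  set L4 := Real.log L3 with hL4
  have hf : ff x = L * L2 ^ 2 * L4 / L3 ^ 2 := rfl
  have hfp : 0 < ff x := by rw [hf]; positivity
  have hH1 : 1 ≤ H := by linarith
  set θ := 16 / c₁ * H / ff x with hθ
  have hxp : 0 < x := by linarith
  have hθ0 : 0 < θ := by rw [hθ]; positivity
  -- log Y >= L / L2^2
  have hY : Real.log (x ^ θ) = θ * L := by rw [Real.log_rpow hxp]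
  have hθL2 : 1 / L2 ^ 2 ≤ θ := by
    have h1 : 16 / c₁ * L / ff x ≤ θ := by
      rw [hθ]; gcongr
    refine le_trans ?_ h1
    rw [hf]
    rw [div_le_div_iff₀ (by positivity) (by positivity), div_eq_mul_inv (L * L2 ^ 2 * L4)]
    have h2 : L4 * (L3 ^ 2)⁻¹ ≤ 16 / c₁ := by
      rw [← div_eq_mul_inv, div_le_iff₀ (by positivity)]
      have : (16 / c₁) * L3 ≤ 16 / c₁ * L3 ^ 2 := by
        apply mul_le_mul_of_nonneg_left _ (by positivity)
        nlinarith
      linarith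
    calc 1 * (L * L2 ^ 2 * L4 * (L3 ^ 2)⁻¹) = (L * L2 ^ 2) * (L4 * (L3 ^ 2)⁻¹) := by ring
      _ ≤ (L * L2 ^ 2) * (16 / c₁) := by gcongr
      _ = 16 / c₁ * L * L2 ^ 2 := by ring
  have hYL : L / L2 ^ 2 ≤ θ * L := by
    have := mul_le_mul_of_nonneg_right hθL2 (by linarith : 0 ≤ L)
    calc L / L2 ^ 2 = 1 / L2 ^ 2 * L := by ring
      _ ≤ _ := this
  have hYpos : 0 < x ^ θ := Real.rpow_pos_of_pos hxp _
  have hb1 : Real.log 32 + L2 ≤ θ * L := by
    refine le_trans ?_ hYL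
    rw [le_div_iff₀ (by positivity)]
    linarith
  have hb2 : Real.log (max Y₀ 1) ≤ θ * L := by
    refine le_trans ?_ hYL
    rw [le_div_iff₀ (by positivity)]
    linarith
  have hb3 : Y₀ ≤ x ^ θ := by
    have h1 : max Y₀ 1 ≤ x ^ θ := by
      rw [← Real.log_le_log_iff (by positivity) hYpos, hY]
      exact hb2
    exact (le_max_left _ _).trans h1
  have hb4 : 32 * L ≤ x ^ θ := by
    rw [← Real.log_le_log_iff (by positivity) hYpos, hY, Real.log_mul (by norm_num) (by linarith)]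
    exact hb1
  -- ff(Y)
  have hLYpos : 0 < θ * L := by positivity
  have hM2lo : L2 / 2 ≤ Real.log (θ * L) := by
    have h1 : Real.log (L / L2 ^ 2) ≤ Real.log (θ * L) := Real.log_le_log (by positivity) hYL
    rw [Real.log_div (by linarith) (by positivity), Real.log_pow] at h1
    push_cast at h1
    linarith
  have hM2hi : Real.log (θ * L) ≤ L2 := by
    apply Real.log_le_log hLYpos
    nlinarith
  have hM3hi : Real.log (Real.log (θ * L)) ≤ L3 := Real.log_le_log (by linarith) hM2hi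
  have hlog2 : Real.log 2 < 1 := by have := Real.log_two_lt_d9; linarith
  have hM3lo : L3 / 2 ≤ Real.log (Real.log (θ * L)) := by
    have h1 : Real.log (L2 / 2) ≤ Real.log (Real.log (θ * L)) := Real.log_le_log (by positivity) hM2lo
    rw [Real.log_div (by linarith) (by norm_num)] at h1
    linarith
  have hM4lo : L4 / 2 ≤ Real.log (Real.log (Real.log (θ * L))) := by
    have h1 : Real.log (L3 / 2) ≤ Real.log (Real.log (Real.log (θ * L))) :=
      Real.log_le_log (by positivity) hM3lo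
    rw [Real.log_div (by linarith) (by norm_num)] at h1
    linarith
  have hffY : θ * ff x / 8 ≤ ff (x ^ θ) := by
    have h1 : ff (x ^ θ) = (θ * L) * (Real.log (θ * L)) ^ 2 *
        Real.log (Real.log (Real.log (θ * L))) / (Real.log (Real.log (θ * L))) ^ 2 := by
      unfold ff
      rw [hY]
    have hM3p : 0 < Real.log (Real.log (θ * L)) := by linarith
    rw [h1, hf]
    calc θ * (L * L2 ^ 2 * L4 / L3 ^ 2) / 8 = (θ * L) * (L2 / 2) ^ 2 * (L4 / 2) / L3 ^ 2 := by ring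
      _ ≤ (θ * L) * (Real.log (θ * L)) ^ 2 *
        Real.log (Real.log (Real.log (θ * L))) / (Real.log (Real.log (θ * L))) ^ 2 := by
        gcongr
        · exact mul_nonneg (mul_nonneg hLYpos.le (sq_nonneg _)) (by linarith)
  have hb5 : H + 1 ≤ c₁ * ff (x ^ θ) := by
    have h1 : c₁ * (θ * ff x / 8) = 2 * H := by
      rw [hθ]; field_simp; norm_num
    have h2 : c₁ * (θ * ff x / 8) ≤ c₁ * ff (x ^ θ) := by gcongr
    linarith
  have hpi : x / (2 * L) ≤ Nat.primeCounting ⌊x⌋₊ := by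
    refine le_trans ?_ (Chebyshev.pi_ge' (by linarith : 1 < x))
    rw [div_le_div_iff₀ (by positivity) (by positivity)]
    have h1 : Real.log (x + 2) ≤ L + 1 := by
      have h2 : Real.log (x + 2) ≤ Real.log (x * 2) := Real.log_le_log (by linarith) (by linarith)
      rw [Real.log_mul (by linarith) (by norm_num)] at h2
      linarith
    have h3 : (0.69 : ℝ) < Real.log 2 := by have := Real.log_two_gt_d9; linarith
    have h4 : x / 2 ≤ (x - 1) * Real.log 2 - Real.log (x + 2) := by nlinarith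
    nlinarith
  refine ⟨by linarith, hfp, hH1, hb3, hb5, hb4, hθ0, a9, hpi⟩

open Classical in
/-- Task S2 from the statement of `short_run` -/
theorem gap_frequency_of (hs : ∃ c : ℝ, 0 < c ∧ ∃ Y₀ : ℝ, ∀ Y : ℝ, Y₀ ≤ Y → ∀ x : ℕ, ∃ a : ℕ, x ≤ a ∧
    (a : ℝ) + c * ff Y ≤ x + Y ∧
    ∀ k : ℕ, 1 ≤ k → (k : ℝ) ≤ c * ff Y → ∃ p : ℕ, p.Prime ∧ (p : ℝ) ≤ Y ^ (1 / 10 : ℝ) ∧ p ∣ a + k) :
    ∃ c C : ℝ, 0 < c ∧ 0 < C ∧ C * c ≤ 1 / 2 ∧ ∃ x₀ : ℝ, ∀ x : ℝ, x₀ ≤ x → ∀ H : ℝ,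
    Real.log x ≤ H → H ≤ c * ff x →
    x ^ (1 - C * H / ff x) ≤ (((Finset.range ⌊x⌋₊).filter (fun n : ℕ => (Nat.nth Nat.Prime (n + 1) : ℝ) ≤ x ∧
      H ≤ (Nat.nth Nat.Prime (n + 1) : ℝ) - Nat.nth Nat.Prime n)).card : ℝ) := by
  obtain ⟨c₁, hc₁, Y₀, hrun⟩ := hs
  obtain ⟨x₀, hx₀⟩ := S2_params (c₁ := c₁) (Y₀ := Y₀) hc₁
  obtain ⟨x₁, hx₁⟩ := eventually_atTop.1 (t1.eventually_ge_atTop 1 : ∀ᶠ x : ℝ in atTop, (1 : ℝ) ≤ Real.log x)
  refine ⟨c₁ / 64, 32 / c₁, by positivity, by positivity, ?_, max x₀ x₁, ?_⟩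
  · rw [show 32 / c₁ * (c₁ / 64) = 1 / 2 by field_simp; norm_num]
  intro x hx H hLH hH
  have hxx₀ : x₀ ≤ x := (le_max_left _ _).trans hx
  have hL1 : 1 ≤ Real.log x := hx₁ x ((le_max_right _ _).trans hx)
  have hff0 : 0 < ff x := by
    by_contra hcon
    push Not at hcon
    have : c₁ / 64 * ff x ≤ 0 := mul_nonpos_of_nonneg_of_nonpos (by positivity) hcon
    linarith
  have hθ : 16 / c₁ * H / ff x ≤ 1 / 4 := by
    rw [div_le_iff₀ hff0]
    calc 16 / c₁ * H ≤ 16 / c₁ * (c₁ / 64 * ff x) := by gcongr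
      _ = 1 / 4 * ff x := by field_simp; norm_num
  obtain ⟨hx16, _, hH1, hYY, hHY, hbig, hθ0, hquart, hpi⟩ := hx₀ x hxx₀ H hLH hθ
  set θ := 16 / c₁ * H / ff x with hθdef
  set Y := x ^ θ with hY
  have hxp : 0 < x := by linarith
  have hY32 : 32 ≤ Y := by linarith
  set Z : ℕ := ⌈Y⌉₊ with hZ
  have hYZ : Y ≤ Z := Nat.le_ceil Y
  have hZY : (Z : ℝ) < Y + 1 := Nat.ceil_lt_add_one (by linarith)
  have hZ2 : 2 ≤ Z := by
    have : (2 : ℝ) ≤ Z := by linarith
    exact_mod_cast this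
  choose a ha1 ha2 ha3 using fun j : ℕ => hrun Y hYY (j * Z)
  have hcomb := S2_comb (x := ⌊x⌋₊) (Y := Z) (H := H) (by linarith) hZ2 a ?_ ?_
  · -- conclusion
    set G : ℕ := #{n ∈ range ⌊x⌋₊ | Nat.nth Nat.Prime (n + 1) ≤ ⌊x⌋₊ ∧
      H ≤ (Nat.nth Nat.Prime (n + 1) : ℝ) - Nat.nth Nat.Prime n} with hG
    have hGeq : (((Finset.range ⌊x⌋₊).filter (fun n : ℕ => (Nat.nth Nat.Prime (n + 1) : ℝ) ≤ x ∧
      H ≤ (Nat.nth Nat.Prime (n + 1) : ℝ) - Nat.nth Nat.Prime n)).card : ℝ) = G := by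
      rw [hG]
      norm_cast
      congr 1
      apply filter_congr
      intro n _
      rw [Nat.le_floor_iff hxp.le]
    rw [hGeq]
    have h1 : (Nat.primeCounting ⌊x⌋₊ : ℝ) ≤ Z * (2 * G + 3) := by exact_mod_cast hcomb
    have h2 : x / (2 * Real.log x) ≤ (2 * Y) * (2 * G + 3) := by
      refine hpi.trans (h1.trans ?_)
      gcongr
      linarith
    -- x / (8 Y log x) <= G + 3/2
    have hYp : 0 < Y := by linarith
    have hLp : 0 < Real.log x := by linarith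
    have h3 : x / (8 * Real.log x * Y) ≤ G + 3 / 2 := by
      rw [div_le_iff₀ (by positivity)]
      rw [div_le_iff₀ (by positivity)] at h2
      linarith
    have h4 : x ^ (1 - 32 / c₁ * H / ff x) = x / Y ^ 2 := by
      have e : 1 - 32 / c₁ * H / ff x = 1 - θ * 2 := by rw [hθdef]; ring
      rw [e, Real.rpow_sub hxp, Real.rpow_one, Real.rpow_mul hxp.le, hY]
      norm_num
    rw [h4]
    have h5 : x / Y ^ 2 * 4 ≤ x / (8 * Real.log x * Y) := by
      rw [div_mul_eq_mul_div, div_le_div_iff₀ (by positivity) (by positivity)]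
      have : (32 * Real.log x) * Y ≤ Y * Y := by gcongr
      nlinarith
    have h6 : 1 ≤ x / Y ^ 2 := by
      rw [le_div_iff₀ (by positivity), one_mul]
      have : Y ^ 2 = x ^ (θ * 2) := by
        rw [Real.rpow_mul hxp.le, hY]; norm_num
      rw [this]
      calc x ^ (θ * 2) ≤ x ^ (1 : ℝ) := by
            apply Real.rpow_le_rpow_of_exponent_le (by linarith)
            linarith
        _ = x := Real.rpow_one x
    linarith
  · intro j hj
    refine ⟨ha1 j, ?_⟩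
    have h1 := ha2 j
    push_cast at h1 ⊢
    linarith
  · intro j hj k hk1 hk
    obtain ⟨p, hp, hp1, hp2⟩ := ha3 j k hk1 (hk.trans hHY)
    intro hprime
    have h1 : p = a j + k := (Nat.prime_dvd_prime_iff_eq hp hprime).1 hp2
    have h2 : Z ≤ a j := by
      have := ha1 j
      nlinarith
    have h3 : Y ^ (1 / 10 : ℝ) ≤ Y := by
      calc Y ^ (1 / 10 : ℝ) ≤ Y ^ (1 : ℝ) := by
            apply Real.rpow_le_rpow_of_exponent_le (by linarith)
            norm_num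
        _ = Y := Real.rpow_one Y
    have h4 : (Z : ℝ) + 1 ≤ p := by
      have : Z + 1 ≤ p := by omega
      exact_mod_cast this
    linarith

end Pool.Agent.H312R2.RG
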